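import Pool.Agent.MP_5c28a4_al.H8S.Tw
import Pool.Agent.MP_5c28a4_al.H14S.StU
import Pool.Agent.MP_5c28a4_al.H6S.StNc1
import Pool.Agent.MP_5c28a4_al.H59S.StLift
import Pool.Agent.MP_5c28a4_al.H42S.StLgq
import Pool.Agent.MP_5c28a4_al.H15S.StOut

/-!
Section S5: bounded class of the subgroups of prime power order.
-/

set_option autoImplicit false

namespace Pool.Agent.MP_5c28a4_al.H89S

theorem st : BFin → BVn → BSt → BCom → BUlt → SLNW → SLNU → SU → ST3 → SFGab → SSt :=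
  fun hF hV hS hC hU hW hN h1 h2 hA => StA.out hF hV (StA.tw hF hV hS h1 h2 hA
    (StA.nc hF (StA.nc1 hF hC (StA.upr hF))) (StA.lift hF hS hU hN) (StA.lgq hW))

end Pool.Agent.MP_5c28a4_al.H89S
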