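import Pool.Agent.MP_5c28a4_al.H89S.Spec

/-!
Section S5: nilpotent actions, the reduction lemma and the statements of the parts.
-/

set_option autoImplicit false

namespace Pool.Agent.MP_5c28a4_al.H89S.StA

open scoped commutatorElement

section Nil

variable {N A : Type} [Group N] [AddCommGroup A]

/-- the upper series of a set of group elements -/
def up (ρ : Representation ℤ N A) (S : Set N) : ℕ → Submodule ℤ A
  | 0 => ⊥
  | i + 1 => ⨅ s ∈ S, (up ρ S i).comap (ρ s - 1)

/-- `S` acts nilpotently of index `n` -/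
def Nil (ρ : Representation ℤ N A) (S : Set N) (n : ℕ) : Prop := ∀ a, a ∈ up ρ S n

/-- the representations that are considered -/
def Ok (p : ℕ) (u : FF →₀ ℤ) (ρ : Representation ℤ N A) : Prop :=
  Sat u ρ ∧ ∀ a : A, (p : ℤ) • a = 0

variable {ρ : Representation ℤ N A} {S S' : Set N}

lemma mem_up_zero {a : A} : a ∈ up ρ S 0 ↔ a = 0 := Submodule.mem_bot ℤ

lemma mem_up_succ {i : ℕ} {a : A} : a ∈ up ρ S (i + 1) ↔ ∀ s ∈ S, ρ s a - a ∈ up ρ S i := by
  simp [up, Submodule.mem_iInf]

lemma mem_up_iff {n : ℕ} {a : A} : a ∈ up ρ S n ↔ ∀ l : List N, l.length = n →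
    (∀ y ∈ l, y ∈ S) → (l.map fun y => ρ y - 1).prod a = 0 := by
  induction n generalizing a with
  | zero =>
    rw [mem_up_zero]
    refine ⟨fun h l _ _ => by rw [h, map_zero], fun h => by simpa using h [] rfl (by simp)⟩
  | succ n ih =>
    rw [mem_up_succ]
    refine ⟨fun h l hl hS => ?_, fun h s hs => ih.2 fun l hl hS => ?_⟩
    · rcases List.eq_nil_or_concat l with rfl | ⟨l', s, rfl⟩
      · simp at hl
      · have := ih.1 (h s (hS s (by simp))) l' (by simpa using hl) fun y hy => hS y (by simp [hy])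
        simpa using this
    · have := h (l ++ [s]) (by simp [hl]) (by
        intro y hy
        rcases List.mem_append.1 hy with h1 | h1
        · exact hS y h1
        · rw [List.mem_singleton.1 h1]; exact hs)
      simpa using this

lemma nil_iff {n : ℕ} : Nil ρ S n ↔ ∀ l : List N, l.length = n → (∀ y ∈ l, y ∈ S) →
    (l.map fun y => ρ y - 1).prod = 0 :=
  ⟨fun h l hl hS => LinearMap.ext fun a => mem_up_iff.1 (h a) l hl hS,
    fun h a => mem_up_iff.2 fun l hl hS => by rw [h l hl hS]; rfl⟩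

lemma up_anti (h : S ⊆ S') (n : ℕ) : up ρ S' n ≤ up ρ S n := fun _ ha =>
  mem_up_iff.2 fun l hl hS => mem_up_iff.1 ha l hl fun y hy => h (hS y hy)

lemma up_le_succ (n : ℕ) : up ρ S n ≤ up ρ S (n + 1) := by
  induction n with
  | zero => exact bot_le
  | succ n ih => exact fun a ha => mem_up_succ.2 fun s hs => ih (mem_up_succ.1 ha s hs)

lemma up_mono : Monotone (up ρ S) := monotone_nat_of_le_succ up_le_succ

lemma Nil.mono {n m : ℕ} (h : Nil ρ S' n) (hS : S ⊆ S') (hn : n ≤ m) : Nil ρ S m :=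
  fun a => up_mono hn (up_anti hS n (h a))

/-- a set acting trivially is nilpotent -/
lemma nil_one (h : ∀ s ∈ S, ρ s = 1) : Nil ρ S 1 := fun a =>
  mem_up_succ.2 fun s hs => by simp [h s hs]

/-- nilpotence is a local property -/
lemma nil_of_finset {n : ℕ} (h : ∀ F : Finset N, ↑F ⊆ S → Nil ρ (↑F) n) : Nil ρ S n := by
  classical
  exact nil_iff.2 fun l hl hS => nil_iff.1 (h l.toFinset fun y hy => hS y (by simpa using hy)) l hl
    fun y hy => by simpa using hy

/-- an element that normalises `S` preserves the upper series -/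
lemma up_inv {g : N} (hg : ∀ s ∈ S, g⁻¹ * s * g ∈ S) (n : ℕ) :
    ∀ a ∈ up ρ S n, ρ g a ∈ up ρ S n := by
  induction n with
  | zero => intro a ha; rw [mem_up_zero.1 ha, map_zero]; exact Submodule.zero_mem _
  | succ n ih =>
    intro a ha
    refine mem_up_succ.2 fun s hs => ?_
    have h1 := ih _ (mem_up_succ.1 ha _ (hg s hs))
    rwa [map_sub, ← Module.End.mul_apply, ← map_mul, ← mul_assoc, ← mul_assoc, mul_inv_cancel,
      one_mul, map_mul, Module.End.mul_apply] at h1

lemma up_closure (n : ℕ) : up ρ (Subgroup.closure S : Subgroup N) n = up ρ S n := by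
  have key : ∀ g ∈ Subgroup.closure S, ∀ i, ∀ a ∈ up ρ S (i + 1), ρ g a - a ∈ up ρ S i := by
    intro g hg
    induction hg using Subgroup.closure_induction with
    | mem s hs => exact fun i a ha => mem_up_succ.1 ha s hs
    | one => intro i a _; simp
    | mul x y _ _ hx hy =>
      intro i a ha
      have h1 : ρ y a ∈ up ρ S (i + 1) := by
        simpa using Submodule.add_mem _ (up_le_succ i (hy i a ha)) ha
      simpa using Submodule.add_mem _ (hx i _ h1) (hy i a ha)
    | inv x _ hx =>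
      have h0 : ∀ b, ρ x (ρ x⁻¹ b) = b := fun b => by
        rw [← Module.End.mul_apply, ← map_mul, mul_inv_cancel, map_one, Module.End.one_apply]
      have h0' : ∀ b, ρ x⁻¹ (ρ x b) = b := fun b => by
        rw [← Module.End.mul_apply, ← map_mul, inv_mul_cancel, map_one, Module.End.one_apply]
      have h1 : ∀ i, ∀ a ∈ up ρ S i, ρ x⁻¹ a ∈ up ρ S i := by
        intro i
        induction i with
        | zero => intro a ha; rw [mem_up_zero.1 ha, map_zero]; exact Submodule.zero_mem _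
        | succ i ih =>
          intro a ha
          have h2 := Submodule.sub_mem _ ha (up_le_succ i (ih _ (hx i a ha)))
          rwa [map_sub, h0', sub_sub_cancel] at h2
      intro i a ha
      have h2 := Submodule.neg_mem _ (hx i _ (h1 _ a ha))
      rwa [h0, neg_sub] at h2
  refine le_antisymm (up_anti Subgroup.subset_closure n) ?_
  induction n with
  | zero => exact le_rfl
  | succ n ih => exact fun a ha => mem_up_succ.2 fun g hg => ih (key g hg n a ha)

lemma Nil.closure {n : ℕ} (h : Nil ρ S n) : Nil ρ (Subgroup.closure S : Subgroup N) n :=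
  fun a => by rw [up_closure]; exact h a

/-- commuting nilpotent sets -/
lemma Nil.union {n m : ℕ} (h : Nil ρ S n) (h' : Nil ρ S' m)
    (hc : ∀ s ∈ S, ∀ s' ∈ S', s * s' = s' * s) : Nil ρ (S ∪ S') (n + m) := by
  have key : ∀ k i j, i + j = k → ∀ a ∈ up ρ S i, a ∈ up ρ S' j → a ∈ up ρ (S ∪ S') k := by
    intro k
    induction k with
    | zero => intro i j hk a ha _; rwa [show i = 0 by omega] at ha
    | succ k ih =>
      intro i j hk a ha ha'
      rcases i with _ | i
      · rw [mem_up_zero.1 ha]; exact Submodule.zero_mem _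
      rcases j with _ | j
      · rw [mem_up_zero.1 ha']; exact Submodule.zero_mem _
      refine mem_up_succ.2 ?_
      rintro s (hs | hs)
      · refine ih i (j + 1) (by omega) _ (mem_up_succ.1 ha s hs)
          (Submodule.sub_mem _ (up_inv (fun x hx => ?_) _ a ha') ha')
        rwa [mul_assoc, ← hc s hs x hx, inv_mul_cancel_left]
      · refine ih (i + 1) j (by omega) _
          (Submodule.sub_mem _ (up_inv (fun x hx => ?_) _ a ha) ha) (mem_up_succ.1 ha' s hs)
        rwa [mul_assoc, hc x hx s hs, inv_mul_cancel_left]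
  exact fun a => key _ n m rfl a (h a) (h' a)

lemma nil_biUnion {ι : Type} (T : Finset ι) (Z : ι → Set N) (B : Subgroup N) (hB : Cm B B) {n : ℕ}
    (hZ : ∀ i ∈ T, Z i ⊆ B) (h : ∀ i ∈ T, Nil ρ (Z i) n) :
    Nil ρ (⋃ i ∈ T, Z i) (T.card * n + 1) := by
  classical
  induction T using Finset.induction_on with
  | empty => simpa using nil_one (ρ := ρ) (S := ∅) (by simp)
  | insert i T hi ih =>
    have h1 := (h i (by simp)).union (ih (fun j hj => hZ j (by simp [hj]))
      fun j hj => h j (by simp [hj])) fun s hs s' hs' => by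
        obtain ⟨j, hj, h2⟩ := Set.mem_iUnion₂.1 hs'
        exact hB s (hZ i (by simp) hs) s' (hZ j (by simp [hj]) h2)
    rw [Finset.set_biUnion_insert, Finset.card_insert_of_notMem hi]
    exact h1.mono le_rfl (by rw [add_mul]; omega)

/-- transport along an injective map of modules -/
lemma Nil.of_inj {N' A' : Type} [Group N'] [AddCommGroup A'] {σ : Representation ℤ N' A'}
    {T : Set N'} {n : ℕ} (h : Nil σ T n) (i : A →+ A') (hi : Function.Injective i)
    (hS : ∀ s ∈ S, ∃ t ∈ T, ∀ a, i (ρ s a) = σ t (i a)) : Nil ρ S n := by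
  have key : ∀ k a, i a ∈ up σ T k → a ∈ up ρ S k := by
    intro k
    induction k with
    | zero => exact fun a ha => mem_up_zero.2 (hi (by rw [mem_up_zero.1 ha, map_zero]))
    | succ k ih =>
      refine fun a ha => mem_up_succ.2 fun s hs => ih _ ?_
      obtain ⟨t, ht, h1⟩ := hS s hs
      rw [map_sub, h1]
      exact mem_up_succ.1 ha t ht
  exact fun a => key n a (h _)

/-- the action factors through a homomorphism -/
lemma Nil.of_map {N' : Type} [Group N'] {σ : Representation ℤ N' A} (f : N →* N')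
    (hf : ∀ x, σ (f x) = ρ x) {n : ℕ} (h : Nil σ (f '' S) n) : Nil ρ S n :=
  h.of_inj (AddMonoidHom.id A) Function.injective_id fun s hs =>
    ⟨f s, ⟨s, hs, rfl⟩, fun a => by rw [hf]; rfl⟩

lemma Nil.conj {n : ℕ} (h : Nil ρ S' n) (x : N) (hS : ∀ s ∈ S, x⁻¹ * s * x ∈ S') : Nil ρ S n :=
  h.of_inj (ρ x⁻¹).toAddMonoidHom
    (Function.LeftInverse.injective (g := ρ x) fun b => by
      change ρ x (ρ x⁻¹ b) = b
      rw [← Module.End.mul_apply, ← map_mul, mul_inv_cancel, map_one, Module.End.one_apply])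
    fun s hs => ⟨_, hS s hs, fun a => by
      change ρ x⁻¹ (ρ s a) = ρ (x⁻¹ * s * x) (ρ x⁻¹ a)
      rw [← Module.End.mul_apply, ← Module.End.mul_apply, ← map_mul, ← map_mul,
        mul_inv_cancel_right]⟩

lemma sat_apply {u : FF →₀ ℤ} : Sat u ρ ↔ ∀ (φ : FF →* N) (a : A),
    ∑ w ∈ u.support, u w • ρ (φ w) a = 0 := by
  refine forall_congr' fun φ => ?_
  rw [LinearMap.ext_iff]
  simp [Finsupp.sum, LinearMap.sum_apply]

lemma sat_comp {N' : Type} [Group N'] {u : FF →₀ ℤ} (h : Sat u ρ) (f : N' →* N) :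
    Sat u (ρ.comp f : Representation ℤ N' A) := fun φ => h (f.comp φ)

lemma sat_of_surj {N' : Type} [Group N'] {u : FF →₀ ℤ} (h : Sat u ρ) {σ : Representation ℤ N' A}
    (f : N →* N') (hs : Function.Surjective f) (hf : ∀ x, σ (f x) = ρ x) : Sat u σ := by
  intro φ
  choose g hg using fun i => hs (φ (FreeGroup.of i))
  have h1 : φ = f.comp (FreeGroup.lift g) := FreeGroup.ext_hom _ _ fun i => by simp [hg]
  have h2 := h (FreeGroup.lift g)
  rw [h1]
  simpa only [MonoidHom.comp_apply, hf] using h2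

variable {p : ℕ} {u : FF →₀ ℤ}

lemma Ok.comp {N' : Type} [Group N'] (h : Ok p u ρ) (f : N' →* N) :
    Ok p u (ρ.comp f : Representation ℤ N' A) := ⟨sat_comp h.1 f, h.2⟩

/-- passing to the quotient by a normal subgroup that acts trivially -/
lemma Ok.quot (h : Ok p u ρ) (Y : Subgroup N) [Y.Normal] (hY : ∀ y ∈ Y, ρ y = 1) :
    ∃ σ : Representation ℤ (N ⧸ Y) A, Ok p u σ ∧ ∀ x, σ (QuotientGroup.mk' Y x) = ρ x :=
  ⟨QuotientGroup.lift Y ρ hY, ⟨sat_of_surj h.1 (QuotientGroup.mk' Y)
    (QuotientGroup.mk'_surjective Y) fun _ => rfl, h.2⟩, fun _ => rfl⟩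

/-- some member of `𝒢` has all its subgroups with the property `φ` uniformly nilpotent -/
def NilF (ρ : Representation ℤ N A) (𝒢 : Set (Subgroup N)) (φ : Subgroup N → Prop) : Prop :=
  ∃ K ∈ 𝒢, ∃ t, ∀ J : Subgroup N, J ≤ K → φ J → Nil ρ J t

/-- the reduction to modules on which `Y` acts trivially -/
lemma red0 (𝒢 : Set (Subgroup N)) (φ : Subgroup N → Prop)
    (hd : ∀ K ∈ 𝒢, ∀ K' ∈ 𝒢, ∃ K'' ∈ 𝒢, K'' ≤ K ∧ K'' ≤ K') (Y : Subgroup N) [hY : Y.Normal]
    (H : ∀ (A : Type) [AddCommGroup A] (σ : Representation ℤ N A), Ok p u σ →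
      (∀ y ∈ Y, σ y = 1) → NilF σ 𝒢 φ) (t : ℕ) :
    ∀ (A : Type) [AddCommGroup A] (ρ : Representation ℤ N A), Ok p u ρ → Nil ρ Y t →
      NilF ρ 𝒢 φ := by
  induction t with
  | zero =>
    intro A _ ρ h0 h
    exact H A ρ h0 fun y _ => LinearMap.ext fun a => by
      rw [mem_up_zero.1 (h (ρ y a)), mem_up_zero.1 (h ((1 : Module.End ℤ A) a))]
  | succ t ih =>
    intro A _ ρ h0 h
    have hW : ∀ g, up ρ Y 1 ≤ (up ρ Y 1).comap (ρ g) := fun g a ha =>
      up_inv (fun s hs => by simpa using hY.conj_mem s hs g⁻¹) 1 a ha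
    obtain ⟨K, hK, t1, h1⟩ := H _ (ρ.subrepresentation _ hW)
      ⟨sat_apply.2 fun φ a => Subtype.ext (by simpa using sat_apply.1 h0.1 φ a.1),
        fun a => Subtype.ext (h0.2 a.1)⟩
      fun y hy => LinearMap.ext fun a => Subtype.ext
        (sub_eq_zero.1 (mem_up_zero.1 (mem_up_succ.1 a.2 y hy)))
    have hq : ∀ (g : N) (a : A), ρ.quotient _ hW g (Submodule.Quotient.mk a) =
        Submodule.Quotient.mk (ρ g a) := fun _ _ => rfl
    have h2 : ∀ k a, a ∈ up ρ Y (k + 1) → Submodule.Quotient.mk a ∈ up (ρ.quotient _ hW) Y k := by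
      intro k
      induction k with
      | zero => exact fun a ha => mem_up_zero.2 ((Submodule.Quotient.mk_eq_zero _).2 ha)
      | succ k ih =>
        refine fun a ha => mem_up_succ.2 fun s hs => ?_
        rw [hq, ← Submodule.Quotient.mk_sub]
        exact ih _ (mem_up_succ.1 ha s hs)
    obtain ⟨K', hK', t2, h3⟩ := ih _ (ρ.quotient _ hW)
      ⟨sat_apply.2 fun φ a => by
          obtain ⟨a, rfl⟩ := Submodule.Quotient.mk_surjective _ a
          have := congrArg (up ρ Y 1).mkQ (sat_apply.1 h0.1 φ a)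
          simpa [hq] using this,
        fun a => by
          obtain ⟨a, rfl⟩ := Submodule.Quotient.mk_surjective _ a
          rw [← Submodule.Quotient.mk_smul, h0.2, Submodule.Quotient.mk_zero]⟩
      fun a => by
        obtain ⟨a, rfl⟩ := Submodule.Quotient.mk_surjective _ a
        exact h2 t a (h a)
    obtain ⟨K'', hK'', l1, l2⟩ := hd K hK K' hK'
    refine ⟨K'', hK'', t1 + t2, fun J hJ hφ => ?_⟩
    have h4 : ∀ k (a : up ρ Y 1), a ∈ up (ρ.subrepresentation _ hW) J k → a.1 ∈ up ρ J k := by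
      intro k
      induction k with
      | zero => intro a ha; rw [mem_up_zero.1 ha]; exact Submodule.zero_mem _
      | succ k ih => exact fun a ha => mem_up_succ.2 fun s hs => ih _ (mem_up_succ.1 ha s hs)
    have h5 : ∀ k a, Submodule.Quotient.mk a ∈ up (ρ.quotient _ hW) J k → a ∈ up ρ J (t1 + k) := by
      intro k
      induction k with
      | zero =>
        exact fun a ha => h4 t1 ⟨a, (Submodule.Quotient.mk_eq_zero _).1 (mem_up_zero.1 ha)⟩
          (h1 J (hJ.trans l1) hφ _)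
      | succ k ih =>
        refine fun a ha => mem_up_succ.2 fun s hs => ih _ ?_
        rw [Submodule.Quotient.mk_sub, ← hq]
        exact mem_up_succ.1 ha s hs
    exact fun a => h5 t2 a (h3 J (hJ.trans l2) hφ _)

/-- the reduction to modules over the quotient group -/
lemma red (𝒢 : Set (Subgroup N)) (φ : Subgroup N → Prop)
    (hd : ∀ K ∈ 𝒢, ∀ K' ∈ 𝒢, ∃ K'' ∈ 𝒢, K'' ≤ K ∧ K'' ≤ K') (Y : Subgroup N) [Y.Normal]
    (h0 : Ok p u ρ) {t : ℕ} (h : Nil ρ Y t)
    (H : ∀ (A : Type) [AddCommGroup A] (σ : Representation ℤ (N ⧸ Y) A), Ok p u σ →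
      ∃ K ∈ 𝒢, ∃ t, ∀ J : Subgroup N, J ≤ K → φ J → Nil σ (J.map (QuotientGroup.mk' Y)) t) :
    NilF ρ 𝒢 φ := by
  refine red0 𝒢 φ hd Y (fun A _ σ h1 h2 => ?_) t A ρ h0 h
  obtain ⟨σ', h3, h4⟩ := h1.quot Y h2
  obtain ⟨K, hK, t, h5⟩ := H A σ' h3
  exact ⟨K, hK, t, fun J hJ hφ => Nil.of_map (QuotientGroup.mk' Y) h4 (h5 J hJ hφ)⟩

/-- the reduction for one subgroup -/
lemma red1 (Z Y : Subgroup N) [Y.Normal] (h0 : Ok p u ρ) {t : ℕ} (h : Nil ρ Y t)
    (H : ∀ (A : Type) [AddCommGroup A] (σ : Representation ℤ (N ⧸ Y) A), Ok p u σ →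
      ∃ t, Nil σ (Z.map (QuotientGroup.mk' Y)) t) : ∃ t, Nil ρ Z t := by
  obtain ⟨K, hK, t, h1⟩ := red {Z} (fun _ => True)
    (fun K hK K' hK' => ⟨Z, rfl, le_of_eq hK.symm, le_of_eq hK'.symm⟩) Y h0 h fun A _ σ h1 => by
      obtain ⟨t, ht⟩ := H A σ h1
      exact ⟨Z, rfl, t, fun J hJ _ => ht.mono (Subgroup.map_mono hJ) le_rfl⟩
  exact ⟨t, h1 Z (le_of_eq hK.symm) trivial⟩

end Nil

end Pool.Agent.MP_5c28a4_al.H89S.StA
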