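import Pool.Agent.MP_5c28a4_al.H8S.Base

/-!
Section S5: group theoretic notions and the statements of the parts.
-/

set_option autoImplicit false

namespace Pool.Agent.MP_5c28a4_al.H89S.StA

open scoped commutatorElement

section Grp

variable {G G' : Type} [Group G] [Group G']

/-- the abelianisation of `P` is locally generated by boundedly many elements -/
def LG (P : Subgroup G) : Prop := ∃ s : ℕ, ∀ F : Finset G, (∀ x ∈ F, x ∈ P) →
  ∃ T : Finset G, T.card ≤ s ∧ (∀ x ∈ T, x ∈ P) ∧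
    ∀ x ∈ F, x ∈ Subgroup.normalClosure (↑T : Set G) ⊔ ⁅P, P⁆

/-- a chain of normal subgroups with factors that are alternately `p`-groups and `q`-groups -/
def Ch (p : ℕ) : ℕ → Subgroup G → Subgroup G → Prop
  | 0, R, X => R ≤ X ∧ PMod p R X
  | s + 1, R, X => ∃ (Y₁ Y₂ : Subgroup G) (q : ℕ), q.Prime ∧ q ≠ p ∧ Y₁.Normal ∧ Y₂.Normal ∧
      R ≤ Y₁ ∧ Y₁ ≤ Y₂ ∧ PMod p R Y₁ ∧ PMod q Y₁ Y₂ ∧ Ch p s Y₂ X

lemma itc_map (f : G →* G') (X D : Subgroup G) (n : ℕ) :
    (itc X D n).map f = itc (X.map f) (D.map f) n := by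
  induction n with
  | zero => rfl
  | succ n ih => rw [itc, itc, Subgroup.map_commutator, ih]

lemma itc_normal (X D : Subgroup G) [X.Normal] [D.Normal] (n : ℕ) : (itc X D n).Normal := by
  induction n with
  | zero => assumption
  | succ n ih => rw [itc]; infer_instance

lemma itc_succ' (X D : Subgroup G) (n : ℕ) : itc ⁅X, D⁆ D n = itc X D (n + 1) := by
  induction n with
  | zero => rfl
  | succ n ih => rw [itc, ih]; rfl

lemma itc_anti (X D : Subgroup G) [X.Normal] [D.Normal] : Antitone (itc X D) :=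
  antitone_nat_of_succ_le fun n => by
    have := itc_normal X D n
    exact Subgroup.commutator_le_left _ _

lemma itc_le (X D : Subgroup G) [X.Normal] [D.Normal] (n : ℕ) : itc X D n ≤ X :=
  itc_anti X D (Nat.zero_le n)

lemma lcs_normal (X : Subgroup G) [X.Normal] (n : ℕ) : (X.lowerCentralSeries n).Normal := by
  induction n with
  | zero => assumption
  | succ n ih => rw [Subgroup.lowerCentralSeries_succ]; infer_instance

lemma lcs_le (X : Subgroup G) (n : ℕ) : X.lowerCentralSeries n ≤ X :=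
  X.lowerCentralSeries_antitone (Nat.zero_le n)

lemma lcs_mono {X Y : Subgroup G} (h : X ≤ Y) (n : ℕ) :
    X.lowerCentralSeries n ≤ Y.lowerCentralSeries n := by
  induction n with
  | zero => exact h
  | succ n ih => exact Subgroup.commutator_mono ih h

lemma pw_le (H : Subgroup G) (n : ℕ) : pw H n ≤ H := (Subgroup.closure_le _).2 (by
  rintro _ ⟨y, hy, rfl⟩; exact H.pow_mem hy n)

lemma pow_mem_pw {H : Subgroup G} {y : G} (hy : y ∈ H) (n : ℕ) : y ^ n ∈ pw H n :=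
  Subgroup.subset_closure ⟨y, hy, rfl⟩

lemma pw_le_iff {H K : Subgroup G} {n : ℕ} : pw H n ≤ K ↔ ∀ y ∈ H, y ^ n ∈ K :=
  ⟨fun h _ hy => h (pow_mem_pw hy n), fun h => (Subgroup.closure_le _).2 (by
    rintro _ ⟨y, hy, rfl⟩; exact h y hy)⟩

lemma del_succ_le (L j : ℕ) : Del G L (j + 1) ≤ Del G L j := pw_le _ _

lemma mu_le (X : Subgroup G) (j d : ℕ) : mu X j d ≤ X :=
  sup_le ((pw_le _ _).trans (lcs_le X j)) (lcs_le X _)

lemma mu_map (hF : BFin) (f : G →* G') (X : Subgroup G) (j d : ℕ) :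
    (mu X j d).map f = mu (X.map f) j d := by
  rw [mu, mu, Subgroup.map_sup, hF.pwMap, Subgroup.map_lowerCentralSeries,
    Subgroup.map_lowerCentralSeries]

lemma mu_normal (hF : BFin) (X : Subgroup G) [X.Normal] (j d : ℕ) : (mu X j d).Normal := by
  have := hF.pwNormal G _ d (lcs_normal X j)
  have := lcs_normal X (j + 1)
  rw [mu]
  infer_instance

/-- generators of a commutator subgroup -/
lemma comm_closure (T : Set G) (P W : Subgroup G) [hP : P.Normal]
    (h : ∀ t ∈ T, ∀ c ∈ P, ⁅t, c⁆ ∈ W) : ⁅Subgroup.closure T, P⁆ ≤ W := by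
  rw [Subgroup.commutator_le]
  intro d hd
  induction hd using Subgroup.closure_induction with
  | mem t ht => exact h t ht
  | one => intro c _; simp
  | mul x y _ _ hx hy =>
    intro c hc
    have : ⁅x * y, c⁆ = ⁅x, y * c * y⁻¹⁆ * ⁅y, c⁆ := by simp only [commutatorElement_def]; group
    rw [this]
    exact W.mul_mem (hx _ (hP.conj_mem c hc y)) (hy c hc)
  | inv x _ hx =>
    intro c hc
    have : ⁅x⁻¹, c⁆ = ⁅x, x⁻¹ * c * x⁻¹⁻¹⁆⁻¹ := by simp only [commutatorElement_def]; group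
    rw [this]
    exact W.inv_mem (hx _ (hP.conj_mem c hc x⁻¹))

/-- an element with two coprime powers in a subgroup lies in it -/
lemma mem_of_coprime {H : Subgroup G} {x : G} {a b : ℕ} (hab : a.Coprime b) (ha : x ^ a ∈ H)
    (hb : x ^ b ∈ H) : x ∈ H := by
  have h1 : x = (x ^ a) ^ (Nat.gcdA a b) * (x ^ b) ^ (Nat.gcdB a b) := by
    rw [← zpow_natCast, ← zpow_natCast, ← zpow_mul, ← zpow_mul, ← zpow_add, ← Nat.gcd_eq_gcd_ab,
      hab.gcd_eq_one]
    simp
  rw [h1]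
  exact H.mul_mem (H.zpow_mem ha _) (H.zpow_mem hb _)

lemma eq_one_of_coprime {x : G} {a b : ℕ} (hab : a.Coprime b) (ha : x ^ a = 1) (hb : x ^ b = 1) :
    x = 1 := Subgroup.mem_bot.1 (mem_of_coprime hab (Subgroup.mem_bot.2 ha) (Subgroup.mem_bot.2 hb))

lemma fg_of_surj (h : Group.FG G) (f : G →* G') (hf : Function.Surjective f) : Group.FG G' :=
  Group.fg_of_surjective hf

lemma solv_of_surj (h : Group.IsSolvable G) (f : G →* G') (hf : Function.Surjective f) :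
    Group.IsSolvable G' := Group.isSolvable_of_surjective hf

lemma LG.map {P : Subgroup G} (h : LG P) (f : G →* G') (hf : Function.Surjective f) :
    LG (P.map f) := by
  classical
  obtain ⟨s, hs⟩ := h
  refine ⟨s, fun F hF => ?_⟩
  choose g hg hg' using fun x : F => Subgroup.mem_map.1 (hF x.1 x.2)
  obtain ⟨T, h1, h2, h3⟩ := hs (Finset.univ.image g) fun x hx => by
    obtain ⟨y, _, rfl⟩ := Finset.mem_image.1 hx; exact hg y
  refine ⟨T.image f, Finset.card_image_le.trans h1, by simpa using fun x hx => ⟨x, h2 x hx, rfl⟩,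
    fun x hx => ?_⟩
  rw [Finset.coe_image, ← Subgroup.map_normalClosure _ f hf, ← Subgroup.map_commutator,
    ← Subgroup.map_sup]
  exact ⟨_, h3 _ (Finset.mem_image_of_mem g (Finset.mem_univ ⟨x, hx⟩)), hg' _⟩

lemma LG.of_map {P : Subgroup G} (f : G →* G') (hf : Function.Surjective f)
    (hk : f.ker ⊓ P ≤ ⁅P, P⁆) [P.Normal] (h : LG (P.map f)) : LG P := by
  classical
  obtain ⟨s, hs⟩ := h
  refine ⟨s, fun F hF => ?_⟩
  obtain ⟨T, h1, h2, h3⟩ := hs (F.image f) (by simpa using fun x hx => ⟨x, hF x hx, rfl⟩)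
  choose g hg hg' using fun x : T => Subgroup.mem_map.1 (h2 x.1 x.2)
  have hT : ∀ x ∈ Finset.univ.image g, x ∈ P := fun x hx => by
    obtain ⟨y, _, rfl⟩ := Finset.mem_image.1 hx; exact hg y
  refine ⟨Finset.univ.image g, Finset.card_image_le.trans (by simpa using h1), hT, fun x hx => ?_⟩
  have h4 : (↑T : Set G') = f '' ↑(Finset.univ.image g) := by
    ext y
    simp only [Finset.coe_image, Finset.coe_univ, Set.image_univ, Set.mem_image, Set.mem_range]
    exact ⟨fun hy => ⟨_, ⟨⟨y, hy⟩, rfl⟩, hg' _⟩, by rintro ⟨_, ⟨z, rfl⟩, rfl⟩; rw [hg']; exact z.2⟩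
  have h5 := h3 _ (Finset.mem_image_of_mem f hx)
  rw [h4, ← Subgroup.map_normalClosure _ f hf, ← Subgroup.map_commutator, ← Subgroup.map_sup] at h5
  obtain ⟨y, hy, h6⟩ := h5
  have h7 : y ∈ P := sup_le (Subgroup.normalClosure_le_normal fun z hz => hT z hz)
    (Subgroup.commutator_le_left P P) hy
  have h8 : x * y⁻¹ ∈ ⁅P, P⁆ := hk ⟨by simp [h6], P.mul_mem (hF x hx) (P.inv_mem h7)⟩
  simpa using Subgroup.mul_mem _ (Subgroup.mem_sup_right h8) hy

lemma lg_of_covn (h : SFGab) (hG : Group.FG G) {K : Subgroup G} (hK : CoVN K) : LG K := by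
  obtain ⟨T, h1, h2⟩ := h G hG K hK
  exact ⟨T.card, fun F hF => ⟨T, le_rfl, h1, fun x hx => h2 (hF x hx)⟩⟩

end Grp

/-- the constants of the two identities, for modules of exponent `p` -/
structure Cx (p : ℕ) (u : FF →₀ ℤ) (n L : ℕ) : Prop where
  prime : p.Prime
  pos : 0 < L
  su : ∀ (N A : Type) [Group N] [AddCommGroup A] (ρ : Representation ℤ N A), Ok p u ρ →
    ∀ (B : Subgroup N) (z : N), Cm B B → (∀ b ∈ B, b ^ p = 1) → Nz z B →
      Nil ρ {x | ∃ b ∈ B, x = ⁅z ^ L, b⁆} n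
  st : ∀ (N A : Type) [Group N] [AddCommGroup A] (ρ : Representation ℤ N A), Ok p u ρ →
    ∀ (P B : Subgroup N) (z : N), B ≤ P → Cm B P → ⁅P, P⁆ ≤ B → (∀ x ∈ P, x ^ p ∈ B) → Nz z P →
      (∀ b ∈ B, z * b = b * z) → ∀ y ∈ P, Nil ρ {x | ∃ c ∈ P, x = ⁅y, ⁅z ^ L, c⁆⁆} n

/-- abelian normal subgroups -/
def SUp : Prop := ∀ (p : ℕ) (u : FF →₀ ℤ) (n L : ℕ), Cx p u n L →
  ∀ (e : ℕ) (N A : Type) [Group N] [AddCommGroup A] (ρ : Representation ℤ N A), Group.FG N →
  Group.IsSolvable N → Ok p u ρ → ∀ B : Subgroup N, B.Normal → Cm B B → (∀ b ∈ B, b ^ p ^ e = 1) →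
    ∃ t, Nil ρ (⁅B, Del N (p * L) e⁆ : Subgroup N) t

/-- one step along the refined lower central series -/
def SNC1 : Prop := ∀ (p : ℕ) (u : FF →₀ ℤ) (n L : ℕ), Cx p u n L →
  ∀ (e j s : ℕ) (N A : Type) [Group N] [AddCommGroup A] (ρ : Representation ℤ N A), Group.FG N →
  Group.IsSolvable N → Ok p u ρ → ∀ P : Subgroup N, P.Normal → (∀ x ∈ P, x ^ p ^ e = 1) → LG P →
    mu P j (p ^ (s + 1)) = ⊥ → ∃ t, Nil ρ (mu ⁅P, Del N (p * L) (e + 1)⁆ j (p ^ s)) t

/-- nilpotent normal subgroups -/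
def SNC : Prop := ∀ (p : ℕ) (u : FF →₀ ℤ) (n L : ℕ), Cx p u n L →
  ∀ (e c : ℕ) (N A : Type) [Group N] [AddCommGroup A] (ρ : Representation ℤ N A), Group.FG N →
  Group.IsSolvable N → Ok p u ρ → ∀ P : Subgroup N, P.Normal → (∀ x ∈ P, x ^ p ^ e = 1) →
    (∀ j, LG (itc P (Del N (p * L) (e + 1)) j)) → P.lowerCentralSeries c = ⊥ →
    ∃ k t, Nil ρ (itc P (Del N (p * L) (e + 1)) k) t

/-- splitting off the lowest layer in an ultrapower -/
def SLift : Prop := ∀ (p : ℕ) (u : FF →₀ ℤ) (G A : Type) [Group G] [AddCommGroup A]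
  (ρ : Representation ℤ G A), p.Prime → Group.FG G → Group.IsSolvable G → Ok p u ρ →
  ∀ (R E : Subgroup G) [R.Normal] (m : ℕ), E.Normal → R ≤ E → m.Coprime p → (∀ x ∈ R, x ^ m = 1) →
  PMod p R E → ∃ (N B : Type) (_ : Group N) (_ : AddCommGroup B) (σ : Representation ℤ N B)
    (τ : N →* G ⧸ R) (P : Subgroup N), Group.FG N ∧ Group.IsSolvable N ∧ Ok p u σ ∧
    Function.Surjective τ ∧ (∀ x ∈ τ.ker, x ^ m = 1) ∧ P.Normal ∧
    P.map τ = E.map (QuotientGroup.mk' R) ∧ PMod p ⊥ P ∧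
    (∀ (X : Subgroup G) (c : ℕ), R ≤ X → STc X c →
      STc ((X.map (QuotientGroup.mk' R)).comap τ) c) ∧
    ∀ K : Subgroup N, K.Normal → ∀ t : ℕ,
      (∀ J : Subgroup N, J ≤ K → Finite J ∧ IsPGroup p J → Nil σ J t) →
      ∀ J : Subgroup G, J.map (QuotientGroup.mk' R) ≤ K.map τ → Finite J ∧ IsPGroup p J → Nil ρ J t

/-- local generation under a coprime action -/
def SLGq : Prop := ∀ (H : Type) [Group H], Group.FG H → ∀ (V O : Subgroup H) (p q : ℕ), p.Prime →
  q.Prime → q ≠ p → V.Normal → O.Normal → V ≤ O → LocFin O → Cm V V → PMod p ⊥ V → PMod q V O →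
  V ≤ ⁅O, V⁆ → LG V

/-- the finite `p`-subgroups of a suitable subgroup act uniformly nilpotently -/
def STw : Prop := ∀ (p : ℕ) (u : FF →₀ ℤ), p.Prime → Good p u →
  ∀ (c : ℕ) (G A : Type) [Group G] [AddCommGroup A] (ρ : Representation ℤ G A), Group.FG G →
  Group.IsSolvable G → Ok p u ρ → ∀ X : Subgroup G, CoVN X → Bdd X → STc X c →
    NilF ρ {K | K ≤ X ∧ CoVN K} fun J => Finite J ∧ IsPGroup p J

end Pool.Agent.MP_5c28a4_al.H89S.StA
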