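import Pool.Agent.MP_5c28a4_al.H8S.Spec

/-!
Section S5: the induction along a chain of normal subgroups.
-/

set_option autoImplicit false

namespace Pool.Agent.MP_5c28a4_al.H89S.StA

open scoped commutatorElement

namespace Tw

section Grp

variable {G G' : Type} [Group G] [Group G'] {p : ℕ}

lemma nz_pow {z : G} {B : Subgroup G} (h : Nz z B) (k : ℕ) : Nz (z ^ k) B := by
  induction k with
  | zero => intro x hx; simpa using hx
  | succ k ih =>
    intro x hx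
    constructor
    · have := (ih _ (h x hx).1).1
      rwa [show z ^ k * (z * x * z⁻¹) * (z ^ k)⁻¹ = z ^ (k + 1) * x * (z ^ (k + 1))⁻¹ by
        rw [pow_succ]; group] at this
    · have := (h _ (ih x hx).2).2
      rwa [show z⁻¹ * ((z ^ k)⁻¹ * x * z ^ k) * z = (z ^ (k + 1))⁻¹ * x * z ^ (k + 1) by
        rw [pow_succ]; group] at this

lemma pmod_trans {X Y Z : Subgroup G} (h : PMod p X Y) (h' : PMod p Y Z) : PMod p X Z := by
  intro x hx
  obtain ⟨a, ha⟩ := h' x hx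
  obtain ⟨b, hb⟩ := h _ ha
  exact ⟨a + b, by rwa [pow_add, pow_mul]⟩

lemma pmod_map {X Y : Subgroup G} (h : PMod p X Y) (f : G →* G') : PMod p (X.map f) (Y.map f) := by
  rintro _ ⟨x, hx, rfl⟩
  obtain ⟨a, ha⟩ := h x hx
  exact ⟨a, _, ha, map_pow f _ _⟩

lemma pmod_comap {X Y : Subgroup G} (h : PMod p X Y) (f : G' →* G) :
    PMod p (X.comap f) (Y.comap f) := by
  intro x hx
  obtain ⟨a, ha⟩ := h _ hx
  exact ⟨a, by rwa [Subgroup.mem_comap, map_pow]⟩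

lemma pmod_inf {X Y : Subgroup G} (h : PMod p X Y) (D : Subgroup G) : PMod p (X ⊓ D) (Y ⊓ D) := by
  intro x hx
  obtain ⟨a, ha⟩ := h _ hx.1
  exact ⟨a, ha, D.pow_mem hx.2 _⟩

lemma ch_le {s : ℕ} : ∀ {R X : Subgroup G}, Ch p s R X → R ≤ X := by
  induction s with
  | zero => exact fun h => h.1
  | succ s ih =>
    rintro R X ⟨Y₁, Y₂, q, -, -, -, -, h1, h2, -, -, h3⟩
    exact h1.trans (h2.trans (ih h3))

lemma ch_lower {s : ℕ} {R Y X : Subgroup G} (h : Ch p s Y X) (hR : R ≤ Y) (hp : PMod p R Y) :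
    Ch p s R X := by
  rcases s with _ | s
  · exact ⟨hR.trans h.1, pmod_trans hp h.2⟩
  · obtain ⟨Y₁, Y₂, q, a1, a2, a3, a4, a5, a6, a7, a8, a9⟩ := h
    exact ⟨Y₁, Y₂, q, a1, a2, a3, a4, hR.trans a5, a6, pmod_trans hp a7, a8, a9⟩

lemma ch_map (f : G →* G') (hf : Function.Surjective f) {s : ℕ} :
    ∀ {R X : Subgroup G}, Ch p s R X → Ch p s (R.map f) (X.map f) := by
  induction s with
  | zero => exact fun h => ⟨Subgroup.map_mono h.1, pmod_map h.2 f⟩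
  | succ s ih =>
    rintro R X ⟨Y₁, Y₂, q, a1, a2, a3, a4, a5, a6, a7, a8, a9⟩
    exact ⟨_, _, q, a1, a2, a3.map f hf, a4.map f hf, Subgroup.map_mono a5, Subgroup.map_mono a6,
      pmod_map a7 f, pmod_map a8 f, ih a9⟩

lemma ch_comap (f : G' →* G) {s : ℕ} :
    ∀ {R X : Subgroup G}, Ch p s R X → Ch p s (R.comap f) (X.comap f) := by
  induction s with
  | zero => exact fun h => ⟨Subgroup.comap_mono h.1, pmod_comap h.2 f⟩
  | succ s ih =>
    rintro R X ⟨Y₁, Y₂, q, a1, a2, a3, a4, a5, a6, a7, a8, a9⟩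
    exact ⟨_, _, q, a1, a2, a3.comap f, a4.comap f, Subgroup.comap_mono a5, Subgroup.comap_mono a6,
      pmod_comap a7 f, pmod_comap a8 f, ih a9⟩

lemma ch_inf (D : Subgroup G) [D.Normal] {s : ℕ} :
    ∀ {R X : Subgroup G}, Ch p s R X → Ch p s (R ⊓ D) (X ⊓ D) := by
  induction s with
  | zero => exact fun h => ⟨inf_le_inf_right D h.1, pmod_inf h.2 D⟩
  | succ s ih =>
    rintro R X ⟨Y₁, Y₂, q, a1, a2, a3, a4, a5, a6, a7, a8, a9⟩
    exact ⟨_, _, q, a1, a2, inferInstance, inferInstance, inf_le_inf_right D a5,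
      inf_le_inf_right D a6, pmod_inf a7 D, pmod_inf a8 D, ih a9⟩

lemma ch_tower {h : ℕ} {q : ℕ → ℕ} {L : ℕ → Subgroup G} (hT : Tower h q L) (i : ℕ) :
    ∃ s, Ch p s (L i) (L 0) := by
  induction i with
  | zero => exact ⟨0, le_rfl, fun x hx => ⟨0, by simpa using hx⟩⟩
  | succ i ih =>
    obtain ⟨s, hs⟩ := ih
    have h1 : PMod (q i) (L (i + 1)) (L i) := fun x hx => ⟨1, by simpa using hT.pow i x hx⟩
    by_cases hq : q i = p
    · exact ⟨s, ch_lower hs (hT.anti i) (hq ▸ h1)⟩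
    · exact ⟨s + 1, L (i + 1), L i, q i, hT.prime i, hq, hT.normal _, hT.normal _, le_rfl,
        hT.anti i, fun x hx => ⟨0, by simpa using hx⟩, h1, hs⟩

lemma locFin_of_bdd (hF : BFin) (hs : Group.IsSolvable G) {X : Subgroup G} (h : Bdd X) :
    LocFin X := by
  obtain ⟨n, hn, h⟩ := h
  exact hF.locFin G X hs fun x hx => isOfFinOrder_iff_pow_eq_one.2 ⟨n, hn, h x hx⟩

lemma bdd_map {X : Subgroup G} (h : Bdd X) (f : G →* G') : Bdd (X.map f) := by
  obtain ⟨n, hn, h⟩ := h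
  refine ⟨n, hn, ?_⟩
  rintro _ ⟨x, hx, rfl⟩
  rw [← map_pow, h x hx, map_one]

lemma bdd_mono {X Y : Subgroup G} (h : Bdd X) (hY : Y ≤ X) : Bdd Y := by
  obtain ⟨n, hn, h⟩ := h
  exact ⟨n, hn, fun x hx => h x (hY hx)⟩

lemma le_of_map_le {P Q Q' : Subgroup G} (f : G →* G') (hk : f.ker ⊓ P = ⊥) (hQ : Q ≤ P)
    (hQ' : Q' ≤ P) (h : Q.map f ≤ Q'.map f) : Q ≤ Q' := by
  intro x hx
  obtain ⟨y, hy, h1⟩ := h ⟨x, hx, rfl⟩
  have h2 : x * y⁻¹ ∈ f.ker ⊓ P := ⟨by simp [h1], P.mul_mem (hQ hx) (P.inv_mem (hQ' hy))⟩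
  rw [hk, Subgroup.mem_bot, mul_inv_eq_one] at h2
  exact h2 ▸ hy

/-- the subgroup generated by the `q`-elements -/
lemma qpart (hS : BSt) {P Y X : Subgroup G} {q c : ℕ} (hp : p.Prime) (hq : q.Prime) (hne : q ≠ p)
    [hP : P.Normal] [hY : Y.Normal] (h1 : PMod p ⊥ P) (h2 : PMod q P Y) (hYX : Y ≤ X)
    (hl : LocFin X) (hc : STc X c) : ∃ O : Subgroup G, O.Normal ∧ O ≤ Y ∧
      ⁅O, P⁆ ≤ ⁅O, ⁅O, P⁆⁆ ∧ PMod q ⁅O, P⁆ O ∧ PMod p O Y := by
  let S : Set G := {y | y ∈ Y ∧ ∃ a : ℕ, y ^ q ^ a = 1}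
  have hO : (Subgroup.closure S).Normal := ⟨fun x hx g => by
    refine (Subgroup.closure_le ((Subgroup.closure S).comap (MulAut.conj g).toMonoidHom)).2 ?_ hx
    rintro y ⟨h3, a, h4⟩
    exact Subgroup.subset_closure ⟨hY.conj_mem y h3 g, a, by
      change (g * y * g⁻¹) ^ _ = 1
      rw [conj_pow, h4, mul_one, mul_inv_cancel]⟩⟩
  have hOY : Subgroup.closure S ≤ Y := (Subgroup.closure_le _).2 fun y hy => hy.1
  have hco : ∀ a b : ℕ, (q ^ a).Coprime (p ^ b) := fun a b => Nat.coprime_pow_primes a b hq hp hne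
  refine ⟨Subgroup.closure S, hO, hOY, ?_, ?_, fun y hy => ?_⟩
  · refine comm_closure S P _ fun t ht x hx => ?_
    have ht' : t ∈ Subgroup.closure S := Subgroup.subset_closure ht
    obtain ⟨-, a, ha⟩ := ht
    set M := ⁅Subgroup.closure S, ⁅Subgroup.closure S, P⁆⁆ with hM
    have key : ∀ k : ℕ, ⁅t ^ k, x⁆ * (⁅t, x⁆ ^ k)⁻¹ ∈ M := by
      intro k
      induction k with
      | zero => simp
      | succ k ih =>
        have h3 : ⁅t ^ (k + 1), x⁆ * (⁅t, x⁆ ^ (k + 1))⁻¹ =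
            ⁅t, ⁅t ^ k, x⁆⁆ * (⁅t ^ k, x⁆ * (⁅t, x⁆ ^ k)⁻¹) := by
          rw [pow_succ ⁅t, x⁆, mul_inv_rev, pow_succ' t]
          generalize ⁅t, x⁆ ^ k = w
          simp only [commutatorElement_def]
          group
        rw [h3]
        exact M.mul_mem (Subgroup.commutator_mem_commutator ht'
          (Subgroup.commutator_mem_commutator (Subgroup.pow_mem _ ht' k) hx)) ih
    have h4 := key (q ^ a)
    rw [ha, commutatorElement_one_left, one_mul, inv_mem_iff] at h4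
    obtain ⟨b, hb⟩ := h1 _ (Subgroup.commutator_le_right _ P
      (Subgroup.commutator_mem_commutator ht' hx))
    exact mem_of_coprime (hco a b) h4 (bot_le (a := M) hb)
  · have h3 : (Subgroup.closure S).lowerCentralSeries c ≤ P :=
      hS.glob G X _ P c q hq hl hc (hOY.trans hYX) hP fun x hx => h2 x (hOY hx)
    obtain ⟨Q, Q', -, -, h4, -⟩ := hS.part G (Subgroup.closure S) ⁅Subgroup.closure S, P⁆ (c + 1) q
      hq hO inferInstance (Subgroup.commutator_le_left _ _)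
      (fun T hT => hl T fun t ht => hYX (hOY (hT t ht)))
      (by rw [Subgroup.lowerCentralSeries_succ, Subgroup.commutator_comm]
          exact Subgroup.commutator_mono le_rfl h3)
    have h5 : Subgroup.closure S ≤ Q := (Subgroup.closure_le _).2 fun y hy => by
      obtain ⟨a, ha⟩ := hy.2
      exact (h4 y).2 ⟨Subgroup.subset_closure hy, a, ha ▸ Subgroup.one_mem _⟩
    exact fun x hx => ((h4 x).1 (h5 hx)).2
  · obtain ⟨a, ha⟩ := h2 y hy
    obtain ⟨b, hb⟩ := h1 _ ha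
    refine ⟨b, Subgroup.subset_closure ⟨Y.pow_mem hy _, a, ?_⟩⟩
    rw [← pow_mul, mul_comm, pow_mul]
    exact hb

/-- local generation of a subgroup that is its own commutator with a coprime group -/
lemma lg_coprime (hF : BFin) (hQ : SLGq) (hG : Group.FG G) (hs : Group.IsSolvable G)
    {V O : Subgroup G} {q : ℕ} (hp : p.Prime) (hq : q.Prime) (hne : q ≠ p) [hV : V.Normal]
    [hO : O.Normal] (hVO : V ≤ O) (hb : Bdd O) (h1 : PMod p ⊥ V) (h2 : PMod q V O)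
    (h3 : V ≤ ⁅O, V⁆) : LG V := by
  have hf := QuotientGroup.mk'_surjective ⁅V, V⁆
  refine LG.of_map (QuotientGroup.mk' ⁅V, V⁆) hf (by rw [QuotientGroup.ker_mk']; exact inf_le_left)
    (hQ _ (fg_of_surj hG _ hf) _ (O.map (QuotientGroup.mk' ⁅V, V⁆)) p q hp hq hne (hV.map _ hf)
      (hO.map _ hf) (Subgroup.map_mono hVO)
      (locFin_of_bdd hF (solv_of_surj hs _ hf) (bdd_map hb _)) ?_
      (by simpa using pmod_map h1 (QuotientGroup.mk' ⁅V, V⁆)) (pmod_map h2 _)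
      (by rw [← Subgroup.map_commutator]; exact Subgroup.map_mono h3))
  rintro _ ⟨x, hx, rfl⟩ _ ⟨y, hy, rfl⟩
  rw [← commutatorElement_eq_one_iff_mul_comm, ← map_commutatorElement, ← MonoidHom.mem_ker,
    QuotientGroup.ker_mk']
  exact Subgroup.commutator_mem_commutator hx hy

end Grp

lemma nil_of_kill {N A : Type} [Group N] [AddCommGroup A] {ρ : Representation ℤ N A} {p : ℕ}
    {u : FF →₀ ℤ} (hp : p.Prime) (h : Ok p u ρ) {m : ℤ} (hm : ¬ (p : ℤ) ∣ m) {S : Set N} {n : ℕ}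
    (hk : Kill ρ m S n) : Nil ρ S n := by
  obtain ⟨a, b, hab⟩ := ((Nat.prime_iff_prime_int.1 hp).coprime_iff_not_dvd).2 hm
  refine fun x => mem_up_iff.2 fun l hl hS => ?_
  have h1 : m • (l.map fun y => ρ y - 1).prod x = 0 := LinearMap.congr_fun (hk l hl hS) x
  rw [← one_smul ℤ ((l.map fun y => ρ y - 1).prod x), ← hab, add_smul, mul_smul, mul_smul, h1, h.2, smul_zero, smul_zero,
    add_zero]

lemma cx (h1 : SU) (h2 : ST3) {p : ℕ} {u : FF →₀ ℤ} (hp : p.Prime) (hu : Good p u) :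
    ∃ n L, Cx p u n L := by
  obtain ⟨m, n, L, a1, a2, a3⟩ := h1 p u hp hu
  obtain ⟨m', n', L', b1, b2, b3⟩ := h2 p u hp hu
  refine ⟨n + n', L * L', hp, Nat.mul_pos a2 b2, fun N A _ _ ρ h B z c1 c2 c3 => ?_,
    fun N A _ _ ρ h P B z c1 c2 c3 c4 c5 c6 y hy => ?_⟩
  · rw [mul_comm, pow_mul]
    exact (nil_of_kill hp h a1 (a3 N A ρ h.1 B _ c1 c2 (nz_pow c3 L'))).mono le_rfl (by omega)
  · rw [pow_mul]
    exact (nil_of_kill hp h b1 (b3 N A ρ h.1 P B _ c1 c2 c3 c4 (nz_pow c5 L)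
      (fun b hb => (Commute.pow_left (c6 b hb) L).eq) y hy)).mono le_rfl (by omega)

/-- the conclusion -/
def TW (p : ℕ) {G A : Type} [Group G] [AddCommGroup A] (ρ : Representation ℤ G A)
    (X : Subgroup G) : Prop := NilF ρ {K | K ≤ X ∧ CoVN K} fun J => Finite J ∧ IsPGroup p J

lemma setup (hF : BFin) (hV : BVn) (hS : BSt) (hL : SLift) {p : ℕ} {u : FF →₀ ℤ} {G A : Type}
    [Group G] [AddCommGroup A] {ρ : Representation ℤ G A} (hp : p.Prime) (hG : Group.FG G)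
    (hs : Group.IsSolvable G) (h0 : Ok p u ρ) (R E X : Subgroup G) [R.Normal] {e m c : ℕ}
    (hE : E.Normal) (hRE : R ≤ E) (hEX : E ≤ X) (hm : m.Coprime p)
    (hX : ∀ x ∈ X, x ^ (p ^ e * m) = 1) (hR : ∀ x ∈ R, ∃ k : ℕ, k.Coprime p ∧ x ^ k = 1)
    (hp' : PMod p R E) (hc : STc X c) :
    ∃ (N B : Type) (_ : Group N) (_ : AddCommGroup B) (σ : Representation ℤ N B)
      (τ : N →* G ⧸ R) (P : Subgroup N), Group.FG N ∧ Group.IsSolvable N ∧ Ok p u σ ∧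
      Function.Surjective τ ∧ (∀ x ∈ τ.ker, x ^ m = 1) ∧ P.Normal ∧
      P.map τ = E.map (QuotientGroup.mk' R) ∧ τ.ker ⊓ P = ⊥ ∧ (∀ x ∈ P, x ^ p ^ e = 1) ∧
      P.lowerCentralSeries c = ⊥ ∧ STc ((X.map (QuotientGroup.mk' R)).comap τ) c ∧
      Bdd ((X.map (QuotientGroup.mk' R)).comap τ) ∧
      ∀ K : Subgroup N, K.Normal → CoVN (K.map τ) → K.map τ ≤ X.map (QuotientGroup.mk' R) →
        ∀ t : ℕ, (∀ J : Subgroup N, J ≤ K → Finite J ∧ IsPGroup p J → Nil σ J t) → TW p ρ X := by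
  have hR' : ∀ x ∈ R, x ^ m = 1 := fun x hx => by
    obtain ⟨k, h1, h2⟩ := hR x hx
    exact eq_one_of_coprime (h1.pow_right e) (by rw [← pow_mul, mul_comm, pow_mul, h2, one_pow])
      (by rw [← pow_mul, mul_comm]; exact hX x (hEX (hRE hx)))
  obtain ⟨N, B, i1, i2, σ, τ, P, a1, a2, a3, a4, a5, a6, a7, a8, a9, a10⟩ :=
    hL p u G A ρ hp hG hs h0 R E m hE hRE hm hR' hp'
  have hm0 : 0 < m := Nat.pos_of_ne_zero fun h => hp.ne_one (by simpa [h] using hm)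
  have b1 : ∀ x ∈ (X.map (QuotientGroup.mk' R)).comap τ, x ^ (p ^ e * m * m) = 1 := by
    rintro x ⟨y, hy, h1⟩
    rw [pow_mul]
    exact a5 _ (by rw [MonoidHom.mem_ker, map_pow, ← h1, ← map_pow, hX y hy, map_one])
  have b2 : Bdd ((X.map (QuotientGroup.mk' R)).comap τ) :=
    ⟨_, Nat.mul_pos (Nat.mul_pos (pow_pos hp.pos e) hm0) hm0, b1⟩
  have b3 : P ≤ (X.map (QuotientGroup.mk' R)).comap τ :=
    Subgroup.map_le_iff_le_comap.1 (a7 ▸ Subgroup.map_mono hEX)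
  have b4 := a9 X c (hRE.trans hEX) hc
  refine ⟨N, B, i1, i2, σ, τ, P, a1, a2, a3, a4, a5, a6, a7, eq_bot_iff.2 fun x hx => ?_,
    fun x hx => ?_, eq_bot_iff.2 (hS.glob N _ P ⊥ c p hp (locFin_of_bdd hF a2 b2) b4 b3
      inferInstance a8), b4, b2, fun K hK c1 c2 t c3 => ?_⟩
  · obtain ⟨a, ha⟩ := a8 x hx.2
    exact eq_one_of_coprime (hm.pow_right a) (a5 x hx.1) ha
  · obtain ⟨a, ha⟩ := a8 x hx
    exact eq_one_of_coprime ((Nat.Coprime.mul_left hm hm).pow_right a)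
      (by rw [← pow_mul, ← mul_assoc]; exact b1 x (b3 hx))
      (by rw [← pow_mul, mul_comm, pow_mul, Subgroup.mem_bot.1 ha, one_pow])
  · refine ⟨(K.map τ).comap (QuotientGroup.mk' R), ⟨?_, hV.comap _ _ _ _ c1⟩, t, fun J hJ hφ =>
      a10 K hK t c3 J (Subgroup.map_le_iff_le_comap.2 hJ) hφ⟩
    refine (Subgroup.comap_mono c2).trans ?_
    rw [Subgroup.comap_map_eq, QuotientGroup.ker_mk']
    exact sup_le le_rfl (hRE.trans hEX)

lemma split {G : Type} [Group G] {X : Subgroup G} {p : ℕ} (hp : p.Prime) (h : Bdd X) :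
    ∃ e m : ℕ, m.Coprime p ∧ ∀ x ∈ X, x ^ (p ^ e * m) = 1 := by
  obtain ⟨n, hn, h⟩ := h
  obtain ⟨e, m, h1, rfl⟩ := Nat.exists_eq_pow_mul_and_not_dvd hn.ne' p hp.ne_one
  exact ⟨e, m, (hp.coprime_iff_not_dvd.2 h1).symm, h⟩

/-- the statement for chains of length `s` -/
def TWR (p : ℕ) (u : FF →₀ ℤ) (c s : ℕ) : Prop := ∀ (G A : Type) [Group G] [AddCommGroup A]
  (ρ : Representation ℤ G A), Group.FG G → Group.IsSolvable G → Ok p u ρ → ∀ R X : Subgroup G,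
  R.Normal → CoVN X → Bdd X → STc X c → (∀ x ∈ R, ∃ k : ℕ, k.Coprime p ∧ x ^ k = 1) →
  Ch p s R X → TW p ρ X

variable (hF : BFin) (hV : BVn) (hS : BSt) (hA : SFGab) (hN : SNC) (hL : SLift) (hQ : SLGq)
  {p : ℕ} {u : FF →₀ ℤ} {n L : ℕ} (hx : Cx p u n L) (c : ℕ)

include hF hV hS hA hN hL hx in
lemma base : TWR p u c 0 := by
  intro G A _ _ ρ hG hs h0 R X hR hX hb hc hR' hch
  obtain ⟨e, m, hm, he⟩ := split hx.prime hb
  obtain ⟨N, B, i1, i2, σ, τ, P, a1, a2, a3, a4, -, a6, a7, a8, a9, a10, -, -, a13⟩ :=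
    setup hF hV hS hL hx.prime hG hs h0 R X X hX.1 hch.1 le_rfl hm he hR' hch.2 hc
  have hf := QuotientGroup.mk'_surjective R
  have hpos := Nat.mul_pos hx.prime.pos hx.pos
  obtain ⟨d1, -, -⟩ := hF.del N (p * L) (e + 1) a2 a1 hpos
  obtain ⟨d2, d3, -⟩ := hF.del (G ⧸ R) (p * L) (e + 1) (solv_of_surj hs _ hf) (fg_of_surj hG _ hf)
    hpos
  have h1 : ∀ j, CoVN ((itc P (Del N (p * L) (e + 1)) j).map τ) := fun j => by
    rw [itc_map, a7, hF.delMap _ _ τ _ _ a4]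
    exact hV.itc _ _ _ j (hV.map _ _ _ X hf hX) d2 d3
  obtain ⟨k, t, ht⟩ := hN p u n L hx e c N B σ a1 a2 a3 P a6 a9 (fun j => by
    have := itc_normal P (Del N (p * L) (e + 1)) j
    exact LG.of_map τ a4 (((inf_le_inf_left _ (itc_le _ _ j)).trans a8.le).trans bot_le)
      (lg_of_covn hA (fg_of_surj hG _ hf) (h1 j))) a10
  exact a13 _ (itc_normal _ _ k) (h1 k) (a7 ▸ Subgroup.map_mono (itc_le _ _ k)) t
    fun J hJ _ => ht.mono hJ le_rfl

include hF hV hS hN hL hQ hx in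
lemma step {s : ℕ} (ih : TWR p u c s) : TWR p u c (s + 1) := by
  intro G A _ _ ρ hG hs h0 R₀ X₀ hR₀ hX₀ hb₀ hc₀ hR₀' hch₀
  have hp := hx.prime
  obtain ⟨e, m, hm, he₀⟩ := split hp hb₀
  have hpos := Nat.mul_pos hp.pos hx.pos
  obtain ⟨d0, d0', -⟩ := hF.del G (p * L) (e + 1) hs hG hpos
  suffices H : TW p ρ (X₀ ⊓ Del G (p * L) (e + 1)) by
    obtain ⟨K, hK, h⟩ := H
    exact ⟨K, ⟨hK.1.trans inf_le_left, hK.2⟩, h⟩
  obtain ⟨Y₁, Y₂, q, hq, hne, n1, n2, l1, l2, p1, p2, hch⟩ := ch_inf (Del G (p * L) (e + 1)) hch₀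
  have hX : CoVN (X₀ ⊓ Del G (p * L) (e + 1)) := hV.inf _ _ _ hX₀ (hV.lcs G _ 0 d0 d0')
  have hc : STc (X₀ ⊓ Del G (p * L) (e + 1)) c := fun r hr J hJ => hc₀ r hr J (hJ.trans inf_le_left)
  have hb := bdd_mono hb₀ (inf_le_left (b := Del G (p * L) (e + 1)))
  have hXD : X₀ ⊓ Del G (p * L) (e + 1) ≤ Del G (p * L) (e + 1) := inf_le_right
  have he : ∀ x ∈ X₀ ⊓ Del G (p * L) (e + 1), x ^ (p ^ e * m) = 1 := fun x hx => he₀ x hx.1
  have hR' : ∀ x ∈ R₀ ⊓ Del G (p * L) (e + 1), ∃ k : ℕ, k.Coprime p ∧ x ^ k = 1 :=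
    fun x hx => hR₀' x hx.1
  have hR : (R₀ ⊓ Del G (p * L) (e + 1)).Normal := inferInstance
  generalize X₀ ⊓ Del G (p * L) (e + 1) = X at *
  generalize R₀ ⊓ Del G (p * L) (e + 1) = R at *
  have l3 := ch_le hch
  obtain ⟨N, B, i1, i2, σ, τ, P, a1, a2, a3, a4, a5, a6, a7, a8, a9, a10, a11, a12, a13⟩ :=
    setup hF hV hS hL hp hG hs h0 R Y₁ X n1 l1 (l2.trans l3) hm he hR' p1 hc
  have hf := QuotientGroup.mk'_surjective R
  have hs' := solv_of_surj hs _ hf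
  have n1' := n1.map _ hf
  have n2' := n2.map _ hf
  have p1' : PMod p ⊥ (Y₁.map (QuotientGroup.mk' R)) := by
    simpa using pmod_map p1 (QuotientGroup.mk' R)
  obtain ⟨O, o1, o2, o3, o4, o5⟩ := qpart hS hp hq hne p1' (pmod_map p2 _) (Subgroup.map_mono l3)
    (locFin_of_bdd hF hs' (bdd_map hb _)) (hS.map _ _ _ X c (locFin_of_bdd hF hs hb) hc)
  have v1 : ⁅O, Y₁.map (QuotientGroup.mk' R)⁆ ≤ Y₁.map (QuotientGroup.mk' R) :=
    Subgroup.commutator_le_right _ _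
  have v2 : (⁅O, Y₁.map (QuotientGroup.mk' R)⁆).Normal := inferInstance
  have v3 : ⁅O, Y₁.map (QuotientGroup.mk' R)⁆ ≤ O := Subgroup.commutator_le_left _ _
  generalize ⁅O, Y₁.map (QuotientGroup.mk' R)⁆ = V at *
  have oX := o2.trans (Subgroup.map_mono l3)
  have v4 : LG V := lg_coprime hF hQ (fg_of_surj hG _ hf) hs' hp hq hne v3
    (bdd_mono (bdd_map hb _) oX) (fun x hx => p1' x (v1 hx)) o4 o3
  have w1 : (P ⊓ V.comap τ).map τ = V := le_antisymm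
    (Subgroup.map_le_iff_le_comap.2 inf_le_right) fun x hx => by
      obtain ⟨y, hy, rfl⟩ : x ∈ P.map τ := a7 ▸ v1 hx
      exact ⟨y, ⟨hy, hx⟩, rfl⟩
  have w2 : (P ⊓ V.comap τ).Normal := inferInstance
  have w3 : P ⊓ V.comap τ ≤ P := inf_le_left
  generalize P ⊓ V.comap τ = W at *
  obtain ⟨d1, -, -⟩ := hF.del N (p * L) (e + 1) a2 a1 hpos
  have w4 : ∀ j, itc W (Del N (p * L) (e + 1)) j = W := by
    intro j
    induction j with
    | zero => rfl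
    | succ j ih =>
      rw [itc, ih]
      refine le_antisymm (Subgroup.commutator_le_left _ _) (le_of_map_le τ a8 w3
        ((Subgroup.commutator_le_left _ _).trans w3) ?_)
      rw [Subgroup.map_commutator, w1, hF.delMap _ _ τ _ _ a4, Subgroup.commutator_comm,
        ← hF.delMap _ _ _ _ _ hf]
      exact o3.trans (Subgroup.commutator_mono (oX.trans (Subgroup.map_mono hXD)) le_rfl)
  obtain ⟨k, t, ht⟩ := hN p u n L hx e c N B σ a1 a2 a3 W w2 (fun x hx => a9 x (w3 hx))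
    (fun j => by
      rw [w4]
      exact LG.of_map τ a4 (((inf_le_inf_left _ w3).trans a8.le).trans bot_le) (w1.symm ▸ v4))
    (eq_bot_iff.2 ((lcs_mono w3 c).trans a10.le))
  rw [w4] at ht
  have hg := QuotientGroup.mk'_surjective W
  obtain ⟨K, hK, t', h1⟩ := red {K | K ≤ (X.map (QuotientGroup.mk' R)).comap τ ∧ CoVN K}
    (fun J => Finite J ∧ IsPGroup p J)
    (fun K hK K' hK' => ⟨K ⊓ K', ⟨inf_le_left.trans hK.1, hV.inf _ _ _ hK.2 hK'.2⟩, inf_le_left,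
      inf_le_right⟩) W a3 ht fun C _ σ' h2 => by
    obtain ⟨K, hK, t', h3⟩ := ih _ C σ' (fg_of_surj a1 _ hg) (solv_of_surj a2 _ hg) h2
      ((O.comap τ).map (QuotientGroup.mk' W))
      (((X.map (QuotientGroup.mk' R)).comap τ).map (QuotientGroup.mk' W)) ((o1.comap τ).map _ hg)
      (hV.map _ _ _ _ hg (hV.comap _ _ _ _ (hV.map _ _ _ _ hf hX))) (bdd_map a12 _)
      (hS.map _ _ _ _ c (locFin_of_bdd hF a2 a12) a11) (by
        rintro _ ⟨x, hx, rfl⟩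
        obtain ⟨a, ha⟩ := o4 _ hx
        obtain ⟨y, hy, h4⟩ : τ x ^ q ^ a ∈ W.map τ := w1.symm ▸ ha
        refine ⟨q ^ a * m, Nat.Coprime.mul_left
          (((Nat.coprime_primes hq hp).2 hne).pow_left a) hm, ?_⟩
        have h5 := a5 (y⁻¹ * x ^ q ^ a) (by simp [MonoidHom.mem_ker, h4])
        have h6 : QuotientGroup.mk' W y = 1 := (QuotientGroup.eq_one_iff y).2 hy
        have h7 := congrArg (QuotientGroup.mk' W) h5
        rwa [map_pow, map_mul, map_inv, h6, inv_one, one_mul, map_pow, ← pow_mul, map_one] at h7)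
      (ch_map _ hg (ch_comap τ (ch_lower (ch_map _ hf hch) o2 o5)))
    refine ⟨K.comap (QuotientGroup.mk' W), ⟨?_, hV.comap _ _ _ _ hK.2⟩, t', fun J hJ hφ =>
      h3 _ (Subgroup.map_le_iff_le_comap.2 hJ) ⟨?_, hφ.2.map _⟩⟩
    · refine (Subgroup.comap_mono hK.1).trans ?_
      rw [Subgroup.comap_map_eq, QuotientGroup.ker_mk']
      exact sup_le le_rfl (Subgroup.map_le_iff_le_comap.1 (w1 ▸ v3.trans oX))
    · have := hφ.1
      exact Finite.of_surjective _ ((QuotientGroup.mk' W).subgroupMap_surjective J)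
  exact a13 K hK.2.1 (hV.map _ _ _ _ a4 hK.2) (Subgroup.map_le_iff_le_comap.2 hK.1) t' h1

end Tw

open Tw in
theorem tw (hF : BFin) (hV : BVn) (hS : BSt) (h1 : SU) (h2 : ST3) (hA : SFGab) (hN : SNC)
    (hL : SLift) (hQ : SLGq) : STw := by
  intro p u hp hu c G A _ _ ρ hG hs h0 X hX hb hc
  obtain ⟨n, L, hx⟩ := cx h1 h2 hp hu
  have key : ∀ s, TWR p u c s := fun s => by
    induction s with
    | zero => exact base hF hV hS hA hN hL hx c
    | succ s ih => exact step hF hV hS hN hL hQ hx c ih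
  obtain ⟨h, q, M, hT, rfl⟩ := hF.tower G X hs hX.1 hb
  obtain ⟨s, hch⟩ := ch_tower (p := p) hT h
  rw [hT.bot] at hch
  exact key s G A ρ hG hs h0 ⊥ _ inferInstance hX hb hc
    (fun x hx => ⟨1, Nat.coprime_one_left p, by simpa using hx⟩) hch

end Pool.Agent.MP_5c28a4_al.H89S.StA
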